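import Pool.Agent.X139.BT.Main2

/-!
# Baker's theorem with exponents in a fixed space and arbitrary constants
-/

set_option autoImplicit false

namespace Pool.Agent.X139.VW

open Module Finset
open Pool.Agent.H301R2.SSE (QB mem_QB Lt Lt_rep Lt_mul Lt_alg Lt_log Lt_one)
open Pool.Agent.X139.BT

/-- vectors with coordinates in `Lt` whose combination lies in `W` -/
noncomputable def KerW {N : ℕ} (v : Fin N → ℂ) (W : Submodule QB ℂ) : Submodule QB (Fin N → ℂ) where
  carrier := {x | (∀ k, x k ∈ Lt) ∧ ∑ k, v k * x k ∈ W}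
  zero_mem' := ⟨fun _ => Lt.zero_mem, by simp⟩
  add_mem' := by
    rintro x y ⟨hx, hx0⟩ ⟨hy, hy0⟩
    refine ⟨fun k => Lt.add_mem (hx k) (hy k), ?_⟩
    simp only [Pi.add_apply, mul_add, sum_add_distrib]
    exact W.add_mem hx0 hy0
  smul_mem' := by
    rintro c x ⟨hx, hx0⟩
    refine ⟨fun k => Lt.smul_mem c (hx k), ?_⟩
    have : ∑ k, v k * (c • x) k = c • ∑ k, v k * x k := by
      rw [smul_sum]
      refine sum_congr rfl fun k _ => ?_
      rw [Pi.smul_apply, Algebra.smul_def, Algebra.smul_def]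
      ring
    rw [this]
    exact W.smul_mem c hx0

/-- the value map -/
noncomputable def val {N : ℕ} (v : Fin N → ℂ) (W : Submodule QB ℂ) : KerW v W →ₗ[QB] W where
  toFun x := ⟨∑ k, v k * (x : Fin N → ℂ) k, x.2.2⟩
  map_add' x y := by
    apply Subtype.ext
    simp [mul_add, sum_add_distrib]
  map_smul' c x := by
    apply Subtype.ext
    simp only [Submodule.coe_smul, Pi.smul_apply, RingHom.id_apply, smul_sum]
    refine sum_congr rfl fun k _ => ?_
    rw [Algebra.smul_def, Algebra.smul_def]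
    ring

noncomputable def toKer {N : ℕ} (v : Fin N → ℂ) (W : Submodule QB ℂ) :
    LinearMap.ker (val v W) →ₗ[QB] Ker v where
  toFun x := ⟨(x : KerW v W), (x : KerW v W).2.1, congrArg (fun z : W => (z : ℂ)) x.2⟩
  map_add' x y := rfl
  map_smul' c x := rfl

theorem toKer_inj {N : ℕ} (v : Fin N → ℂ) (W : Submodule QB ℂ) :
    Function.Injective (toKer v W) := by
  intro x y h
  apply Subtype.ext
  apply Subtype.ext
  exact congrArg (fun z : Ker v => (z : Fin N → ℂ)) h

theorem finite_KerW {N : ℕ} (v : Fin N → ℂ) (hv : LinearIndependent QB v) (W : Submodule QB ℂ)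
    [FiniteDimensional QB W] : Module.Finite QB (KerW v W) := by
  haveI := finite_Ker v hv
  haveI : Module.Finite QB (LinearMap.ker (val v W)) :=
    Module.Finite.of_injective (toKer v W) (toKer_inj v W)
  haveI : Module.Finite QB (KerW v W ⧸ LinearMap.ker (val v W)) :=
    Module.Finite.equiv (val v W).quotKerEquivRange.symm
  exact Module.Finite.of_submodule_quotient (LinearMap.ker (val v W))

theorem finrank_KerW {N : ℕ} (v : Fin N → ℂ) (hv : LinearIndependent QB v) (W : Submodule QB ℂ)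
    [FiniteDimensional QB W] : finrank QB (KerW v W) ≤ N * (N - 1) + finrank QB W := by
  haveI := finite_Ker v hv
  haveI := finite_KerW v hv W
  have h1 := LinearMap.finrank_range_add_finrank_ker (val v W)
  have h2 : finrank QB (LinearMap.range (val v W)) ≤ finrank QB W :=
    Submodule.finrank_le _
  have h3 : finrank QB (LinearMap.ker (val v W)) ≤ finrank QB (Ker v) :=
    LinearMap.finrank_le_finrank_of_injective (toKer_inj v W)
  have h4 := finrank_Ker v hv
  omega

/-- **Relations with arbitrary constants.** -/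
theorem relationW (V W : Submodule QB ℂ) [FiniteDimensional QB V] [FiniteDimensional QB W]
    (h1V : (1 : ℂ) ∈ V) {ι : Type*}
    (l : ι → ℂ) (hl : ∀ s, l s ∈ Lt) (hli : LinearIndependent QB (fun s => W1.mkQ (l s))) :
    ∃ E : Finset ι, E.card ≤ finrank QB V * (finrank QB V - 1) + finrank QB W ∧
      ((∃ v ∈ V, v ∈ Lt ∧ Transcendental ℚ v) →
        E.card + 1 ≤ finrank QB V * (finrank QB V - 1) + finrank QB W) ∧
      ∀ S : Finset ι, Disjoint S E → ∀ (x : ι → ℂ) (c d z : ℂ), (∀ s ∈ S, x s ∈ V) → c ∈ V →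
        d ∈ W → z ∈ Lt → ∑ s ∈ S, x s * l s + c + d = z → ∀ s ∈ S, IsAlgebraic ℚ (x s) := by
  classical
  set M := finrank QB V with hM
  let B := Module.finBasis QB V
  let w : Fin M → ℂ := fun k => (B k : ℂ)
  have hw : LinearIndependent QB w := B.linearIndependent.map' V.subtype V.ker_subtype
  haveI := finite_KerW w hw W
  have hKer := finrank_KerW w hw W
  have hrep : ∀ y ∈ V, ∃ ξ : Fin M → QB, y = ∑ k, w k * (ξ k : ℂ) := by
    intro y hy
    refine ⟨fun k => B.repr ⟨y, hy⟩ k, ?_⟩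
    have h1 := B.sum_repr ⟨y, hy⟩
    have h2 := congrArg (fun z : V => (z : ℂ)) h1
    simp only [Submodule.coe_sum, Submodule.coe_smul] at h2
    refine h2.symm.trans (sum_congr rfl fun k _ => ?_)
    rw [Algebra.smul_def, mul_comm]
    rfl
  obtain ⟨a, ha⟩ := hrep 1 h1V
  obtain ⟨k₀, hk₀⟩ : ∃ k, a k ≠ 0 := by
    by_contra hcon
    push Not at hcon
    apply one_ne_zero (α := ℂ)
    rw [ha]
    apply sum_eq_zero
    intro k _
    rw [hcon k]
    simp
  have hk₀' : (a k₀ : ℂ) ≠ 0 := fun h => hk₀ (Subtype.ext h)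
  -- the map `τ`
  let τ : KerW w W →ₗ[QB] (Fin M → ℂ ⧸ W1) := LinearMap.pi fun k =>
    W1.mkQ.comp ((a k₀ • (LinearMap.proj k : (Fin M → ℂ) →ₗ[QB] ℂ) -
      a k • (LinearMap.proj k₀ : (Fin M → ℂ) →ₗ[QB] ℂ)).comp (KerW w W).subtype)
  have hτ : ∀ (y : KerW w W) k,
      τ y k = W1.mkQ (a k₀ • (y : Fin M → ℂ) k - a k • (y : Fin M → ℂ) k₀) :=
    fun y k => rfl
  -- the map `σ`
  let σ : (Fin M → (ι →₀ QB)) →ₗ[QB] (Fin M → ℂ ⧸ W1) :=
    LinearMap.pi fun k => (Finsupp.linearCombination QB (fun s => W1.mkQ (l s))).comp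
      (LinearMap.proj k)
  have hσ : ∀ ρ k, σ ρ k = Finsupp.linearCombination QB (fun s => W1.mkQ (l s)) (ρ k) :=
    fun ρ k => rfl
  have hσi : Function.Injective σ := by
    rw [← LinearMap.ker_eq_bot, LinearMap.ker_eq_bot']
    intro ρ hρ
    funext k
    have := congrFun hρ k
    rw [hσ] at this
    exact (linearIndependent_iff.mp hli) _ this
  let R : Submodule QB (Fin M → (ι →₀ QB)) := (LinearMap.range τ).comap σ
  let σ' : R →ₗ[QB] LinearMap.range τ := σ.restrict (fun r hr => hr)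
  have hσ'i : Function.Injective σ' := by
    intro r r' h
    apply Subtype.ext
    apply hσi
    exact congrArg (fun z : LinearMap.range τ => (z : Fin M → ℂ ⧸ W1)) h
  haveI : FiniteDimensional QB R := Module.Finite.of_injective σ' hσ'i
  have hR : finrank QB R ≤ finrank QB (LinearMap.range τ) :=
    LinearMap.finrank_le_finrank_of_injective hσ'i
  have hrn := LinearMap.finrank_range_add_finrank_ker τ
  -- the kernel of `τ`
  have hker : (∃ v ∈ V, v ∈ Lt ∧ Transcendental ℚ v) → 1 ≤ finrank QB (LinearMap.ker τ) := by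
    rintro ⟨v, hvV, hvL, hvt⟩
    obtain ⟨ν, hν⟩ := hrep v hvV
    let y : Fin M → ℂ := fun k => (ν k : ℂ) - (a k : ℂ) * v
    have hyK : y ∈ KerW w W := by
      refine ⟨fun k => Lt.sub_mem (Lt_alg (mem_QB.mp (ν k).2))
          (Lt_mul (mem_QB.mp (a k).2) hvL), ?_⟩
      have : ∑ k, w k * y k = (∑ k, w k * (ν k : ℂ)) - (∑ k, w k * (a k : ℂ)) * v := by
        rw [sum_mul, ← sum_sub_distrib]
        refine sum_congr rfl fun k _ => ?_
        simp only [y]
        ring
      rw [this, ← hν, ← ha, one_mul, sub_self]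
      exact W.zero_mem
    have hyτ : (⟨y, hyK⟩ : KerW w W) ∈ LinearMap.ker τ := by
      rw [LinearMap.mem_ker]
      funext k
      rw [hτ]
      have e : a k₀ • y k - a k • y k₀ = ((a k₀ * ν k - a k * ν k₀ : QB) : ℂ) := by
        simp only [y, Algebra.smul_def]
        change (a k₀ : ℂ) * _ - (a k : ℂ) * _ = _
        push_cast
        ring
      change W1.mkQ (a k₀ • y k - a k • y k₀) = 0
      rw [e]
      exact W1_mkQ_alg _
    refine Submodule.one_le_finrank_iff.mpr fun hbot => ?_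
    have h6 : (⟨y, hyK⟩ : KerW w W) = 0 := by
      rw [hbot] at hyτ
      exact (Submodule.mem_bot QB).mp hyτ
    have h7 : y k₀ = 0 := congrArg (fun z : KerW w W => (z : Fin M → ℂ) k₀) h6
    apply hvt
    have h8 : v = ((ν k₀ / a k₀ : QB) : ℂ) := by
      push_cast
      rw [eq_div_iff hk₀']
      simp only [y] at h7
      linear_combination -h7
    rw [h8]
    exact mem_QB.mp (ν k₀ / a k₀ : QB).2
  -- the exceptional set
  obtain ⟨E, hE, hpiv⟩ := pivot (K := QB) (R := Fin M → (ι →₀ QB)) (M := Fin M → QB)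
    (fun s : ι => LinearMap.pi fun k => (Finsupp.lapply s).comp (LinearMap.proj k))
    (by
      intro r hr
      funext k
      ext s
      have := congrFun (hr s) k
      exact congrArg (fun z : QB => (z : ℂ)) this) (finrank QB R) R inferInstance le_rfl
  refine ⟨E, by omega, fun hv => ?_, ?_⟩
  · have := hker hv
    omega
  · intro S hSE x c d z hx hc hd hz h
    have hrep' : ∀ s, ∃ ξ : Fin M → QB, s ∈ S → x s = ∑ k, w k * (ξ k : ℂ) := by
      intro s
      by_cases hs : s ∈ S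
      · obtain ⟨ξ, hξ⟩ := hrep _ (hx s hs)
        exact ⟨ξ, fun _ => hξ⟩
      · exact ⟨0, fun h => absurd h hs⟩
    choose ξ hξ using hrep'
    obtain ⟨γ, hγ⟩ := hrep c hc
    let y : Fin M → ℂ := fun k => ∑ s ∈ S, (ξ s k : ℂ) * l s + (γ k : ℂ) * 1 - (a k : ℂ) * z
    have hyK : y ∈ KerW w W := by
      refine ⟨fun k => ?_, ?_⟩
      · refine Lt.sub_mem (Lt.add_mem (Lt.sum_mem fun s _ => ?_) ?_) ?_
        · exact Lt_mul (mem_QB.mp (ξ s k).2) (hl s)
        · exact Lt_mul (mem_QB.mp (γ k).2) Lt_one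
        · exact Lt_mul (mem_QB.mp (a k).2) hz
      · have e1 : ∑ k, w k * y k = ∑ s ∈ S, (∑ k, w k * (ξ s k : ℂ)) * l s +
            (∑ k, w k * (γ k : ℂ)) - (∑ k, w k * (a k : ℂ)) * z := by
          simp only [y, mul_add, mul_sub, sum_add_distrib, sum_sub_distrib, sum_mul, mul_sum,
            mul_one]
          rw [sum_comm]
          congr 1
          · congr 1
            refine sum_congr rfl fun s _ => sum_congr rfl fun k _ => ?_
            ring
          · refine sum_congr rfl fun k _ => ?_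
            ring
        have e2 : ∑ s ∈ S, (∑ k, w k * (ξ s k : ℂ)) * l s = ∑ s ∈ S, x s * l s :=
          sum_congr rfl fun s hs => by rw [← hξ s hs]
        have e3 : ∑ k, w k * y k = -d := by
          rw [e1, ← hγ, ← ha, one_mul, ← h, e2]
          ring
        rw [e3]
        exact W.neg_mem hd
    let ρ : Fin M → (ι →₀ QB) := fun k =>
      ∑ s ∈ S, Finsupp.single s (a k₀ * ξ s k - a k * ξ s k₀)
    have hρs : ∀ k s, ρ k s = if s ∈ S then a k₀ * ξ s k - a k * ξ s k₀ else 0 := by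
      intro k s
      simp only [ρ, Finsupp.finsetSum_apply, Finsupp.single_apply]
      rw [sum_ite_eq']
    have hρR : ρ ∈ R := by
      refine ⟨⟨y, hyK⟩, ?_⟩
      funext k
      rw [hτ, hσ]
      have e3 : (a k₀ • y k - a k • y k₀ : ℂ) =
          ∑ s ∈ S, (a k₀ * ξ s k - a k * ξ s k₀) • l s +
            ((a k₀ * γ k - a k * γ k₀ : QB) : ℂ) := by
        simp only [y, Algebra.smul_def]
        change (a k₀ : ℂ) * _ - (a k : ℂ) * _ = ∑ s ∈ S,
          ((a k₀ * ξ s k - a k * ξ s k₀ : QB) : ℂ) * l s + _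
        push_cast
        simp only [sub_mul, sum_sub_distrib, mul_add, mul_sub, mul_sum]
        have e4 : ∑ s ∈ S, (a k₀ : ℂ) * ((ξ s k : ℂ) * l s) =
          ∑ s ∈ S, (a k₀ : ℂ) * (ξ s k : ℂ) * l s := sum_congr rfl fun s _ => by ring
        have e5 : ∑ s ∈ S, (a k : ℂ) * ((ξ s k₀ : ℂ) * l s) =
          ∑ s ∈ S, (a k : ℂ) * (ξ s k₀ : ℂ) * l s := sum_congr rfl fun s _ => by ring
        rw [e4, e5]
        ring
      change W1.mkQ (a k₀ • y k - a k • y k₀) = _
      rw [e3, map_add, W1_mkQ_alg, add_zero, map_sum]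
      simp only [ρ, map_sum, Finsupp.linearCombination_single, map_smul]
    have hρ0 : ρ = 0 := by
      apply hpiv ρ hρR
      intro s hs
      funext k
      change ρ k s = 0
      rw [hρs, if_neg (fun h => (Finset.disjoint_left.mp hSE) h hs)]
    intro s hs
    have h5 : ∀ k, a k₀ * ξ s k = a k * ξ s k₀ := by
      intro k
      have h6 : ρ k s = 0 := by rw [hρ0]; rfl
      rw [hρs, if_pos hs] at h6
      exact sub_eq_zero.mp h6
    have h7 : x s = ((ξ s k₀ / a k₀ : QB) : ℂ) := by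
      rw [hξ s hs]
      have h8 : ∀ k, (ξ s k : ℂ) = (a k : ℂ) * ((ξ s k₀ / a k₀ : QB) : ℂ) := by
        intro k
        have h9 : ξ s k = a k * (ξ s k₀ / a k₀) := by
          field_simp
          linear_combination h5 k
        conv_lhs => rw [h9]
        push_cast
        rfl
      calc ∑ k, w k * (ξ s k : ℂ) = (∑ k, w k * (a k : ℂ)) * ((ξ s k₀ / a k₀ : QB) : ℂ) := by
            rw [sum_mul]
            refine sum_congr rfl fun k _ => ?_
            rw [h8 k]; ring
        _ = _ := by rw [← ha, one_mul]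
    rw [h7]
    exact mem_QB.mp (ξ s k₀ / a k₀ : QB).2

/-- real form; `v` spans the exponents, `w` are the constants, `t` is in the span of `1` and the
logarithms -/
theorem mainW' {N M : ℕ} (v : Fin N → ℝ) (w : Fin M → ℝ) (h1 : 1 ∈ Comb v) {ι : Type} (α : ι → ℝ)
    (h0 : ∀ s, 0 < α s) (ha : ∀ s, IsAlgebraic ℚ (α s))
    (hli : LinearIndependent ℚ (fun s => Real.log (α s))) :
    ∃ E : Finset ι, E.card ≤ N * (N - 1) + M ∧
      (Real.pi ∈ Comb v → E.card + 1 ≤ N * (N - 1) + M) ∧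
      ∀ (S : Finset ι) (x : ι → ℝ) (c d t : ℝ), (∀ s ∈ S, x s ∈ Comb v) →
        c ∈ Comb v → d ∈ Comb w → (t : ℂ) ∈ Lt → (∀ s ∈ S, s ∈ E → IsAlgebraic ℚ (x s)) →
        (∃ s ∈ S, Transcendental ℚ (x s)) →
          Transcendental ℚ ((∏ s ∈ S, α s ^ x s) * Real.exp (c + d + t)) := by
  classical
  set V : Submodule QB ℂ := Submodule.span QB (Set.range fun k => (v k : ℂ)) with hV
  set W : Submodule QB ℂ := Submodule.span QB (Set.range fun k => (w k : ℂ)) with hW
  haveI : FiniteDimensional QB V := FiniteDimensional.span_of_finite QB (Set.finite_range _)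
  haveI : FiniteDimensional QB W := FiniteDimensional.span_of_finite QB (Set.finite_range _)
  have hMN : finrank QB V ≤ N := by
    have := finrank_range_le_card (R := QB) (fun k : Fin N => (v k : ℂ))
    rwa [Fintype.card_fin] at this
  have hMM : finrank QB W ≤ M := by
    have := finrank_range_le_card (R := QB) (fun k : Fin M => (w k : ℂ))
    rwa [Fintype.card_fin] at this
  have h1V : (1 : ℂ) ∈ V := by
    have := span_of_Comb h1
    rwa [Complex.ofReal_one] at this
  have hl : ∀ s, IsAlgebraic ℚ (Complex.exp ((Real.log (α s) : ℝ) : ℂ)) := fun s =>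
    exp_log_alg (h0 s) (ha s)
  obtain ⟨E, hE, hE', hrel⟩ := relationW V W h1V (fun s => ((Real.log (α s) : ℝ) : ℂ))
    (fun s => Lt_log (hl s)) (indep_W1 (fun s => Real.log (α s)) hl hli)
  have hmono : finrank QB V * (finrank QB V - 1) ≤ N * (N - 1) :=
    Nat.mul_le_mul hMN (Nat.sub_le_sub_right hMN 1)
  refine ⟨E, by omega, ?_, ?_⟩
  · intro hpi
    have := hE' ⟨(Real.pi : ℂ), span_of_Comb hpi, Lt_pi,
      Pool.Agent.H340R2.LW.transcendental_pi_complex⟩
    omega
  · intro S x c d t hx hc hd ht hxE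
    rintro ⟨s, hs, htr⟩ halg
    apply htr
    by_cases hsE : s ∈ E
    · exact hxE s hs hsE
    apply alg_of_ofReal
    set z : ℝ := ∑ s ∈ S, x s * Real.log (α s) + (c + d + t) with hz
    have hzL : (z : ℂ) ∈ Lt := by
      apply Lt_log
      rw [← Complex.ofReal_exp, hz, Real.exp_add, ← prod_eq α h0 S x]
      exact alg_ofReal halg
    set z' : ℝ := ∑ s ∈ S.filter (fun s => s ∉ E), x s * Real.log (α s) + (c + d) with hz'
    have hzz : z' = z - t - ∑ s ∈ S.filter (fun s => s ∈ E), x s * Real.log (α s) := by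
      rw [hz, hz', ← sum_filter_add_sum_filter_not S (fun s => s ∈ E)]
      ring
    have hzL' : (z' : ℂ) ∈ Lt := by
      rw [hzz]
      push_cast
      refine Lt.sub_mem (Lt.sub_mem hzL ht) (Lt.sum_mem fun s hs => ?_)
      have hs' := mem_filter.mp hs
      exact Lt_mul (alg_ofReal (hxE s hs'.1 hs'.2)) (Lt_log (hl s))
    refine hrel (S.filter (fun s => s ∉ E)) ?_ (fun s => (x s : ℂ)) (c : ℂ) (d : ℂ)
      (z' : ℂ) (fun s hs => span_of_Comb (hx s (mem_filter.mp hs).1))
      (span_of_Comb hc) (span_of_Comb hd) hzL' ?_ s (mem_filter.mpr ⟨hs, hsE⟩)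
    · rw [Finset.disjoint_left]
      intro s hs hE
      exact (mem_filter.mp hs).2 hE
    · rw [hz']
      push_cast
      ring

/-- real form; `v` spans the exponents, `w` are the constants -/
theorem mainW {N M : ℕ} (v : Fin N → ℝ) (w : Fin M → ℝ) (h1 : 1 ∈ Comb v) {ι : Type} (α : ι → ℝ)
    (h0 : ∀ s, 0 < α s) (ha : ∀ s, IsAlgebraic ℚ (α s))
    (hli : LinearIndependent ℚ (fun s => Real.log (α s))) :
    ∃ E : Finset ι, E.card ≤ N * (N - 1) + M ∧
      (Real.pi ∈ Comb v → E.card + 1 ≤ N * (N - 1) + M) ∧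
      ∀ (S : Finset ι) (x : ι → ℝ) (c d : ℝ), (∀ s ∈ S, x s ∈ Comb v) →
        c ∈ Comb v → d ∈ Comb w → (∀ s ∈ S, s ∈ E → IsAlgebraic ℚ (x s)) →
        (∃ s ∈ S, Transcendental ℚ (x s)) →
          Transcendental ℚ ((∏ s ∈ S, α s ^ x s) * Real.exp (c + d)) := by
  obtain ⟨E, h2, h3, h4⟩ := mainW' v w h1 α h0 ha hli
  refine ⟨E, h2, h3, fun S x c d hx hc hd hxE htr => ?_⟩
  have := h4 S x c d 0 hx hc hd (by rw [Complex.ofReal_zero]; exact Lt.zero_mem) hxE htr
  rwa [add_zero] at this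

/-- the case of the primes -/
theorem primesW {N M : ℕ} (v : Fin N → ℝ) (w : Fin M → ℝ) (h1 : 1 ∈ Comb v) :
    ∃ E : Finset ℕ, E.card ≤ N * (N - 1) + M ∧
      (Real.pi ∈ Comb v → E.card + 1 ≤ N * (N - 1) + M) ∧
      ∀ (S : Finset ℕ) (x : ℕ → ℝ) (c d t : ℝ), (∀ p ∈ S, p.Prime) → (∀ p ∈ S, x p ∈ Comb v) →
        c ∈ Comb v → d ∈ Comb w → (t : ℂ) ∈ Lt → (∀ p ∈ S, p ∈ E → IsAlgebraic ℚ (x p)) →
        (∃ p ∈ S, Transcendental ℚ (x p)) →
          Transcendental ℚ ((∏ p ∈ S, (p : ℝ) ^ x p) * Real.exp (c + d + t)) := by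
  classical
  obtain ⟨E, hE, hE', h⟩ := mainW' v w h1 (fun p : Nat.Primes => ((p : ℕ) : ℝ))
    (fun p => by exact_mod_cast p.2.pos) (fun p => isAlgebraic_natCast _) log_primes
  refine ⟨E.map ⟨fun p : Nat.Primes => (p : ℕ), Subtype.val_injective⟩, ?_, ?_, ?_⟩
  · rw [card_map]
    exact hE
  · rw [card_map]
    exact hE'
  · intro S x c d t hS hx hc hd ht hxE
    let S' : Finset Nat.Primes := S.attach.image fun p => ⟨p.1, hS p.1 p.2⟩
    have hS' : ∀ p : Nat.Primes, p ∈ S' ↔ (p : ℕ) ∈ S := by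
      intro p
      simp only [S', mem_image, mem_attach, true_and]
      constructor
      · rintro ⟨q, rfl⟩
        exact q.2
      · intro hp
        exact ⟨⟨p, hp⟩, rfl⟩
    have hmap : S'.map ⟨fun p : Nat.Primes => (p : ℕ), Subtype.val_injective⟩ = S := by
      ext q
      simp only [mem_map, Function.Embedding.coeFn_mk]
      constructor
      · rintro ⟨p, hp, rfl⟩
        exact (hS' p).mp hp
      · intro hq
        exact ⟨⟨q, hS q hq⟩, (hS' _).mpr hq, rfl⟩
    have h2 := h S' (fun p => x p) c d t (fun p hp => hx p ((hS' p).mp hp)) hc hd ht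
      (fun p hp hpE => hxE p ((hS' p).mp hp) (mem_map.mpr ⟨p, hpE, rfl⟩))
    rw [← hmap, prod_map]
    rintro ⟨q, hq, hq'⟩
    obtain ⟨p, hp, rfl⟩ := mem_map.mp hq
    exact h2 ⟨p, hp, hq'⟩

end Pool.Agent.X139.VW
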